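import Pool.Agent.R193.MC.Tri

/-!
# Every closed disc of radius `√(60125/578)` contains at least 323 lattice points
-/

namespace Pool.Agent.R193.MC

theorem transfer {x y x' y' : ℝ} (f : ℤ × ℤ → ℤ × ℤ) (hf : Function.Injective f)
    (h : ∀ p ∈ cl x y, f p ∈ cl x' y') (hc : 323 ≤ (cl x y).encard) : 323 ≤ (cl x' y').encard := by
  have h1 : f '' cl x y ⊆ cl x' y' := by
    rintro _ ⟨p, hp, rfl⟩
    exact h p hp
  calc (323 : ℕ∞) ≤ (cl x y).encard := hc
    _ = (f '' cl x y).encard := (hf.encard_image _).symm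
    _ ≤ _ := Set.encard_le_encard h1

theorem fundamental {x y : ℝ} (hy : 0 ≤ y) (hyx : y ≤ x) (hx : x ≤ 1 / 2) :
    323 ≤ (cl x y).encard := by
  have := good_fundamental (1 - 2 * x) (2 * x - 2 * y) (2 * y) (by linarith) (by linarith)
    (by linarith) (by ring)
  have e1 : ((1 - 2 * x) * (((0, 0) : ℤ × ℤ).1 : ℝ) + (2 * x - 2 * y) * (((2176, 0) : ℤ × ℤ).1 : ℝ) +
      2 * y * (((2176, 2176) : ℤ × ℤ).1 : ℝ)) / 4352 = x := by
    push_cast
    ring
  have e2 : ((1 - 2 * x) * (((0, 0) : ℤ × ℤ).2 : ℝ) + (2 * x - 2 * y) * (((2176, 0) : ℤ × ℤ).2 : ℝ) +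
      2 * y * (((2176, 2176) : ℤ × ℤ).2 : ℝ)) / 4352 = y := by
    push_cast
    ring
  rw [e1, e2] at this
  exact this

theorem swap {x y : ℝ} (h : 323 ≤ (cl x y).encard) : 323 ≤ (cl y x).encard := by
  refine transfer (fun p => (p.2, p.1)) ?_ ?_ h
  · intro p q hpq
    simp only [Prod.mk.injEq] at hpq
    exact Prod.ext hpq.2 hpq.1
  · intro p hp
    simp only [cl, Set.mem_setOf_eq] at hp ⊢
    linarith

theorem neg1 {x y : ℝ} (h : 323 ≤ (cl x y).encard) : 323 ≤ (cl (-x) y).encard := by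
  refine transfer (fun p => (-p.1, p.2)) ?_ ?_ h
  · intro p q hpq
    simp only [Prod.mk.injEq, neg_inj] at hpq
    exact Prod.ext hpq.1 hpq.2
  · intro p hp
    simp only [cl, Set.mem_setOf_eq] at hp ⊢
    push_cast
    nlinarith

theorem neg2 {x y : ℝ} (h : 323 ≤ (cl x y).encard) : 323 ≤ (cl x (-y)).encard :=
  swap (neg1 (swap h))

theorem shift {x y : ℝ} (m n : ℤ) (h : 323 ≤ (cl x y).encard) :
    323 ≤ (cl (x + m) (y + n)).encard := by
  refine transfer (fun p => (p.1 + m, p.2 + n)) ?_ ?_ h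
  · intro p q hpq
    simp only [Prod.mk.injEq, add_left_inj] at hpq
    exact Prod.ext hpq.1 hpq.2
  · intro p hp
    simp only [cl, Set.mem_setOf_eq] at hp ⊢
    push_cast
    nlinarith

theorem quadrant {x y : ℝ} (hx : 0 ≤ x) (hy : 0 ≤ y) (hx2 : x ≤ 1 / 2) (hy2 : y ≤ 1 / 2) :
    323 ≤ (cl x y).encard := by
  rcases le_total y x with h | h
  · exact fundamental hy h hx2
  · exact swap (fundamental hx h hy2)

theorem square {x y : ℝ} (hx : |x| ≤ 1 / 2) (hy : |y| ≤ 1 / 2) : 323 ≤ (cl x y).encard := by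
  have h := quadrant (abs_nonneg x) (abs_nonneg y) hx hy
  rcases abs_choice x with h1 | h1 <;> rcases abs_choice y with h2 | h2 <;> rw [h1, h2] at h
  · exact h
  · simpa using neg2 h
  · simpa using neg1 h
  · simpa using neg1 (neg2 h)

theorem many (x y : ℝ) : 323 ≤ (cl x y).encard := by
  have h := shift (round x) (round y) (square (abs_sub_round x) (abs_sub_round y))
  simpa using h

end Pool.Agent.R193.MC
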