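import Pool.Agent.R193.MC.Disc

/-!
# Two inequivalent largest circles which enclose 322 lattice points
-/

namespace Pool.Agent.R193.MC

/-- the Euclidean plane -/
abbrev E : Type := EuclideanSpace ℝ (Fin 2)

/-- the lattice points of the plane -/
def lattice : Set E := {x | ∀ i, ∃ k : ℤ, x i = k}

/-- the circle with centre `c` and radius `r` encloses exactly `n` lattice points -/
def Encloses (n : ℕ) (c : E) (r : ℝ) : Prop :=
  0 < r ∧ (lattice ∩ Metric.ball c r).encard = n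

/-- the circle is an MC-circle of `n`: it encloses exactly `n` lattice points and its radius is at
least the radius of every circle which encloses exactly `n` lattice points -/
def IsMCCircle (n : ℕ) (c : E) (r : ℝ) : Prop :=
  Encloses n c r ∧ ∀ c' r', Encloses n c' r' → r' ≤ r

/-- the lattice point with given coordinates -/
noncomputable def pt (p : ℤ × ℤ) : E := !₂[(p.1 : ℝ), (p.2 : ℝ)]

theorem pt_injective : Function.Injective pt := by
  intro p q h
  have h0 := congrArg (fun v : E => v 0) h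
  have h1 := congrArg (fun v : E => v 1) h
  simp only [pt] at h0 h1
  simp at h0 h1
  exact Prod.ext h0 h1

theorem mem_lattice_iff (x : E) : x ∈ lattice ↔ ∃ p, pt p = x := by
  constructor
  · intro h
    obtain ⟨a, ha⟩ := h 0
    obtain ⟨b, hb⟩ := h 1
    refine ⟨(a, b), ?_⟩
    ext i
    fin_cases i
    · simp [pt, ha]
    · simp [pt, hb]
  · rintro ⟨p, rfl⟩ i
    fin_cases i
    · exact ⟨p.1, by simp [pt]⟩
    · exact ⟨p.2, by simp [pt]⟩

theorem dist_sq (x y : E) : dist x y ^ 2 = (x 0 - y 0) ^ 2 + (x 1 - y 1) ^ 2 := by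
  rw [EuclideanSpace.dist_eq, Real.sq_sqrt (Finset.sum_nonneg fun i _ => sq_nonneg _)]
  simp [Fin.sum_univ_two, Real.dist_eq, sq_abs]

theorem dist_pt_sq (p : ℤ × ℤ) (c : E) :
    dist (pt p) c ^ 2 = ((p.1 : ℝ) - c 0) ^ 2 + ((p.2 : ℝ) - c 1) ^ 2 := by
  rw [dist_sq]
  simp [pt]

theorem mem_ball_iff {c : E} {r : ℝ} (hr : 0 < r) (p : ℤ × ℤ) :
    pt p ∈ Metric.ball c r ↔ ((p.1 : ℝ) - c 0) ^ 2 + ((p.2 : ℝ) - c 1) ^ 2 < r ^ 2 := by
  rw [Metric.mem_ball, ← dist_pt_sq]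
  constructor
  · intro h
    exact pow_lt_pow_left₀ h dist_nonneg two_ne_zero
  · intro h
    exact lt_of_pow_lt_pow_left₀ 2 hr.le h

theorem inter_eq {c : E} {r : ℝ} (hr : 0 < r) :
    lattice ∩ Metric.ball c r =
      pt '' {p : ℤ × ℤ | ((p.1 : ℝ) - c 0) ^ 2 + ((p.2 : ℝ) - c 1) ^ 2 < r ^ 2} := by
  ext x
  constructor
  · rintro ⟨h1, h2⟩
    obtain ⟨p, rfl⟩ := (mem_lattice_iff x).mp h1
    exact ⟨p, (mem_ball_iff hr p).mp h2, rfl⟩
  · rintro ⟨p, hp, rfl⟩
    exact ⟨(mem_lattice_iff _).mpr ⟨p, rfl⟩, (mem_ball_iff hr p).mpr hp⟩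

/-- the common radius -/
noncomputable def R : ℝ := Real.sqrt (60125 / 578)

theorem R_pos : 0 < R := Real.sqrt_pos.mpr (by norm_num)

theorem R_sq : R ^ 2 = 60125 / 578 := Real.sq_sqrt (by norm_num)

/-- larger circles enclose more than 322 points -/
theorem not_larger {c : E} {r : ℝ} (h : Encloses 322 c r) : r ≤ R := by
  by_contra hcon
  push Not at hcon
  obtain ⟨hr, hc⟩ := h
  rw [inter_eq hr, pt_injective.encard_image] at hc
  have h1 : cl (c 0) (c 1) ⊆ {p : ℤ × ℤ | ((p.1 : ℝ) - c 0) ^ 2 + ((p.2 : ℝ) - c 1) ^ 2 < r ^ 2} := by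
    intro p hp
    have h2 : R ^ 2 < r ^ 2 := pow_lt_pow_left₀ hcon R_pos.le two_ne_zero
    rw [R_sq] at h2
    exact lt_of_le_of_lt hp h2
  have h3 := (many (c 0) (c 1)).trans (Set.encard_le_encard h1)
  rw [hc] at h3
  exact absurd h3 (by norm_num)

/-- integral form: the points inside of the circle with centre `(a, b) / 34` -/
noncomputable def inner (a b : ℤ) : Finset (ℤ × ℤ) := box.filter fun p =>
  decide ((34 * p.1 - a) * (34 * p.1 - a) + (34 * p.2 - b) * (34 * p.2 - b) < 120250)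

theorem card1 : (inner 9 9).card = 322 := by decide +kernel

theorem card2 : (inner 17 3).card = 322 := by decide +kernel

theorem bound_aux {t a : ℤ} (ha : 3 ≤ a) (ha' : a ≤ 17) (h : (34 * t - a) * (34 * t - a) ≤ 120250) :
    -11 ≤ t ∧ t ≤ 12 := by
  constructor
  · by_contra hcon
    push Not at hcon
    nlinarith
  · by_contra hcon
    push Not at hcon
    nlinarith

theorem int_form (a b x y : ℤ) :
    ((x : ℝ) - a / 34) ^ 2 + ((y : ℝ) - b / 34) ^ 2 =
      (((34 * x - a) * (34 * x - a) + (34 * y - b) * (34 * y - b) : ℤ) : ℝ) / 1156 := by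
  push_cast
  ring

theorem inner_eq {a b : ℤ} (ha : 3 ≤ a) (ha' : a ≤ 17) (hb : 3 ≤ b) (hb' : b ≤ 17) :
    {p : ℤ × ℤ | ((p.1 : ℝ) - a / 34) ^ 2 + ((p.2 : ℝ) - b / 34) ^ 2 < R ^ 2} = ↑(inner a b) := by
  ext p
  rw [Set.mem_ofPred_eq, int_form, R_sq, Finset.mem_coe, inner, Finset.mem_filter, decide_eq_true_iff]
  have key : ((((34 * p.1 - a) * (34 * p.1 - a) + (34 * p.2 - b) * (34 * p.2 - b) : ℤ) : ℝ) / 1156 <
      60125 / 578) ↔
      (34 * p.1 - a) * (34 * p.1 - a) + (34 * p.2 - b) * (34 * p.2 - b) < 120250 := by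
    rw [div_lt_div_iff₀ (by norm_num) (by norm_num)]
    constructor
    · intro h
      have : (((34 * p.1 - a) * (34 * p.1 - a) + (34 * p.2 - b) * (34 * p.2 - b) : ℤ) : ℝ) <
          ((120250 : ℤ) : ℝ) := by
        push_cast at h ⊢
        linarith
      exact_mod_cast this
    · intro h
      have : (((34 * p.1 - a) * (34 * p.1 - a) + (34 * p.2 - b) * (34 * p.2 - b) : ℤ) : ℝ) <
          ((120250 : ℤ) : ℝ) := by exact_mod_cast h
      push_cast at this ⊢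
      linarith
  rw [key]
  constructor
  · intro h
    refine ⟨?_, h⟩
    have h1 := bound_aux (t := p.1) ha ha' (by nlinarith [mul_self_nonneg (34 * p.2 - b)])
    have h2 := bound_aux (t := p.2) hb hb' (by nlinarith [mul_self_nonneg (34 * p.1 - a)])
    rw [box, Finset.mem_product, Finset.mem_Icc, Finset.mem_Icc]
    exact ⟨h1, h2⟩
  · exact fun h => h.2

/-- the centre `(a, b) / 34` -/
noncomputable def ctr (a b : ℤ) : E := !₂[(a : ℝ) / 34, (b : ℝ) / 34]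

theorem inter_ctr {a b : ℤ} (ha : 3 ≤ a) (ha' : a ≤ 17) (hb : 3 ≤ b) (hb' : b ≤ 17) :
    lattice ∩ Metric.ball (ctr a b) R = pt '' ↑(inner a b) := by
  rw [inter_eq R_pos, ← inner_eq ha ha' hb hb']
  simp [ctr]

theorem isMC_ctr {a b : ℤ} (ha : 3 ≤ a) (ha' : a ≤ 17) (hb : 3 ≤ b) (hb' : b ≤ 17)
    (hc : (inner a b).card = 322) : IsMCCircle 322 (ctr a b) R := by
  refine ⟨⟨R_pos, ?_⟩, fun c' r' h => not_larger h⟩
  rw [inter_ctr ha ha' hb hb', pt_injective.encard_image, Set.encard_coe_eq_coe_finsetCard, hc]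

/-- lattice points on the first circle -/
noncomputable def bd : Finset (ℤ × ℤ) := box.filter fun p =>
  decide ((34 * p.1 - 9) * (34 * p.1 - 9) + (34 * p.2 - 9) * (34 * p.2 - 9) = 120250)

theorem bd_dist : ∀ p ∈ bd, ∀ q ∈ bd,
    (p.1 - q.1) * (p.1 - q.1) + (p.2 - q.2) * (p.2 - q.2) ≠ 9 := by decide +kernel

/-- the vectors of square length 405 -/
def dirs : List (ℤ × ℤ) :=
  [(18, 9), (18, -9), (-18, 9), (-18, -9), (9, 18), (9, -18), (-9, 18), (-9, -18)]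

theorem dirs_spec : ∀ a ∈ Finset.Icc (-20 : ℤ) 20, ∀ b ∈ Finset.Icc (-20 : ℤ) 20,
    a * a + b * b = 405 → (a, b) ∈ dirs := by decide +kernel

theorem inner_dirs : ∀ p ∈ inner 9 9, ∀ d ∈ dirs,
    ¬ ((34 * (p.1 + d.1) - 9) * (34 * (p.1 + d.1) - 9) +
      (34 * (p.2 + d.2) - 9) * (34 * (p.2 + d.2) - 9) < 120250) := by decide +kernel

theorem inner_dist {p q : ℤ × ℤ} (hp : p ∈ inner 9 9) (hq : q ∈ inner 9 9) :
    (q.1 - p.1) * (q.1 - p.1) + (q.2 - p.2) * (q.2 - p.2) ≠ 405 := by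
  intro h
  have h1 : -20 ≤ q.1 - p.1 ∧ q.1 - p.1 ≤ 20 := by constructor <;> nlinarith
  have h2 : -20 ≤ q.2 - p.2 ∧ q.2 - p.2 ≤ 20 := by constructor <;> nlinarith
  have h3 := dirs_spec _ (Finset.mem_Icc.mpr h1) _ (Finset.mem_Icc.mpr h2) h
  have h4 := inner_dirs p hp _ h3
  apply h4
  rw [inner, Finset.mem_filter, decide_eq_true_iff] at hq
  have e1 : p.1 + (q.1 - p.1) = q.1 := by ring
  have e2 : p.2 + (q.2 - p.2) = q.2 := by ring
  simp only [e1, e2]
  exact hq.2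

theorem mem_bd {p : ℤ × ℤ} (h : pt p ∈ Metric.sphere (ctr 9 9) R) : p ∈ bd := by
  rw [Metric.mem_sphere] at h
  have h1 : dist (pt p) (ctr 9 9) ^ 2 = 60125 / 578 := by rw [h, R_sq]
  rw [dist_pt_sq] at h1
  have e0 : (ctr 9 9) 0 = ((9 : ℤ) : ℝ) / 34 := by simp [ctr]
  have e1 : (ctr 9 9) 1 = ((9 : ℤ) : ℝ) / 34 := by simp [ctr]
  rw [e0, e1, int_form] at h1
  have h2 : (34 * p.1 - 9) * (34 * p.1 - 9) + (34 * p.2 - 9) * (34 * p.2 - 9) = 120250 := by
    have : (((34 * p.1 - 9) * (34 * p.1 - 9) + (34 * p.2 - 9) * (34 * p.2 - 9) : ℤ) : ℝ) =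
        ((120250 : ℤ) : ℝ) := by
      push_cast at h1 ⊢
      linarith
    exact_mod_cast this
  rw [bd, Finset.mem_filter, decide_eq_true_iff]
  refine ⟨?_, h2⟩
  have h3 := bound_aux (t := p.1) (a := 9) (by norm_num) (by norm_num)
    (by nlinarith [mul_self_nonneg (34 * p.2 - 9)])
  have h4 := bound_aux (t := p.2) (a := 9) (by norm_num) (by norm_num)
    (by nlinarith [mul_self_nonneg (34 * p.1 - 9)])
  rw [box, Finset.mem_product, Finset.mem_Icc, Finset.mem_Icc]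
  exact ⟨h3, h4⟩

theorem on_second {p : ℤ × ℤ}
    (h : (34 * p.1 - 17) * (34 * p.1 - 17) + (34 * p.2 - 3) * (34 * p.2 - 3) = 120250) :
    pt p ∈ Metric.sphere (ctr 17 3) R := by
  rw [Metric.mem_sphere]
  have e0 : (ctr 17 3) 0 = ((17 : ℤ) : ℝ) / 34 := by simp [ctr]
  have e1 : (ctr 17 3) 1 = ((3 : ℤ) : ℝ) / 34 := by simp [ctr]
  have h1 : dist (pt p) (ctr 17 3) ^ 2 = R ^ 2 := by
    rw [dist_pt_sq, e0, e1, int_form, h, R_sq]
    norm_num
  exact (pow_left_inj₀ dist_nonneg R_pos.le two_ne_zero).mp h1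

/-- the circles are not equivalent -/
theorem circles_differ (g : E ≃ᵢ E) (hg : g '' lattice = lattice) :
    g '' Metric.sphere (ctr 9 9) R ≠ Metric.sphere (ctr 17 3) R := by
  intro h
  have pull : ∀ p : ℤ × ℤ, pt p ∈ Metric.sphere (ctr 17 3) R → ∃ q ∈ bd, g (pt q) = pt p := by
    intro p hp
    rw [← h] at hp
    obtain ⟨x, hx, hxp⟩ := hp
    have hl : pt p ∈ lattice := (mem_lattice_iff _).mpr ⟨p, rfl⟩
    rw [← hg] at hl
    obtain ⟨y, hy, hyp⟩ := hl
    have hxy : x = y := g.injective (hxp.trans hyp.symm)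
    subst hxy
    obtain ⟨q, rfl⟩ := (mem_lattice_iff x).mp hy
    exact ⟨q, mem_bd hx, hxp⟩
  obtain ⟨q1, hq1, e1⟩ := pull (-1, -10) (on_second (by norm_num))
  obtain ⟨q2, hq2, e2⟩ := pull (2, -10) (on_second (by norm_num))
  have hd : dist (pt q1) (pt q2) = dist (pt (-1, -10)) (pt (2, -10)) := by
    rw [← e1, ← e2, g.dist_eq]
  have hd2 : dist (pt q1) (pt q2) ^ 2 = dist (pt (-1, -10)) (pt (2, -10)) ^ 2 := by rw [hd]
  rw [dist_sq, dist_sq] at hd2
  simp only [pt] at hd2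
  simp at hd2
  have h9 : (q1.1 - q2.1) * (q1.1 - q2.1) + (q1.2 - q2.2) * (q1.2 - q2.2) = (9 : ℤ) := by
    have : (((q1.1 - q2.1) * (q1.1 - q2.1) + (q1.2 - q2.2) * (q1.2 - q2.2) : ℤ) : ℝ) =
        ((9 : ℤ) : ℝ) := by
      push_cast
      nlinarith
    exact_mod_cast this
  exact bd_dist q1 hq1 q2 hq2 h9

/-- the sets of enclosed lattice points are not equivalent -/
theorem sets_differ (g : E ≃ᵢ E) :
    g '' (lattice ∩ Metric.ball (ctr 9 9) R) ≠ lattice ∩ Metric.ball (ctr 17 3) R := by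
  intro h
  rw [inter_ctr (by norm_num) (by norm_num) (by norm_num) (by norm_num),
    inter_ctr (by norm_num) (by norm_num) (by norm_num) (by norm_num)] at h
  have pull : ∀ p ∈ inner 17 3, ∃ q ∈ inner 9 9, g (pt q) = pt p := by
    intro p hp
    have : pt p ∈ pt '' (↑(inner 17 3) : Set (ℤ × ℤ)) := ⟨p, Finset.mem_coe.mpr hp, rfl⟩
    rw [← h] at this
    obtain ⟨_, ⟨q, hq, rfl⟩, hqp⟩ := this
    exact ⟨q, Finset.mem_coe.mp hq, hqp⟩
  obtain ⟨q1, hq1, e1⟩ := pull (-4, -9) (by decide +kernel)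
  obtain ⟨q2, hq2, e2⟩ := pull (5, 9) (by decide +kernel)
  have hd : dist (pt q1) (pt q2) = dist (pt (-4, -9)) (pt (5, 9)) := by
    rw [← e1, ← e2, g.dist_eq]
  have hd2 : dist (pt q1) (pt q2) ^ 2 = dist (pt (-4, -9)) (pt (5, 9)) ^ 2 := by rw [hd]
  rw [dist_sq, dist_sq] at hd2
  simp only [pt] at hd2
  simp at hd2
  have h9 : (q2.1 - q1.1) * (q2.1 - q1.1) + (q2.2 - q1.2) * (q2.2 - q1.2) = (405 : ℤ) := by
    have : (((q2.1 - q1.1) * (q2.1 - q1.1) + (q2.2 - q1.2) * (q2.2 - q1.2) : ℤ) : ℝ) =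
        ((405 : ℤ) : ℝ) := by
      push_cast
      nlinarith
    exact_mod_cast this
  exact inner_dist hq1 hq2 h9

end Pool.Agent.R193.MC
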