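import Mathlib

/-!
# Lattice points in closed discs of radius `√(60125/578)`

Every closed disc of this radius contains at least 323 lattice points.
-/

namespace Pool.Agent.R193.MC

/-- binary subdivisions of a triangle: split the edge number `e` at its midpoint -/
inductive Tree : Type
  | leaf : Tree
  | node : ℕ → Tree → Tree → Tree

/-- the vertex `v / 4352` has distance at most `√(60125/578)` from the lattice point `p` -/
def inD (v p : ℤ × ℤ) : Bool :=
  decide ((4352 * p.1 - v.1) * (4352 * p.1 - v.1) + (4352 * p.2 - v.2) * (4352 * p.2 - v.2)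
    ≤ 1970176000)

/-- lattice points near the origin -/
noncomputable def box : Finset (ℤ × ℤ) := Finset.Icc (-11) 12 ×ˢ Finset.Icc (-11) 12

/-- the lattice points of the box near to all vertices -/
noncomputable def near (A B C : ℤ × ℤ) : Finset (ℤ × ℤ) := box.filter fun p => inD A p && inD B p && inD C p

/-- midpoint -/
def mid (A B : ℤ × ℤ) : ℤ × ℤ := ((A.1 + B.1) / 2, (A.2 + B.2) / 2)

/-- the midpoint is integral -/
def isMid (A B : ℤ × ℤ) : Bool :=
  decide (2 * (mid A B).1 = A.1 + B.1) && decide (2 * (mid A B).2 = A.2 + B.2)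

/-- check a subdivision -/
noncomputable def check : Tree → ℤ × ℤ → ℤ × ℤ → ℤ × ℤ → Bool
  | .leaf, A, B, C => decide (323 ≤ (near A B C).card)
  | .node 0 l r, A, B, C => isMid A B && (check l A (mid A B) C && check r (mid A B) B C)
  | .node 1 l r, A, B, C => isMid B C && (check l B (mid B C) A && check r (mid B C) C A)
  | .node _ l r, A, B, C => isMid C A && (check l C (mid C A) B && check r (mid C A) A B)

/-- the triangle `O P c₂` -/
def tree1 : Tree := (.node 2 (.node 0 .leaf (.node 1 .leaf .leaf)) (.node 1 .leaf (.node 1 (.node 2 .leaf .leaf) .leaf)))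

/-- the triangle `O c₂ c₁` -/
def tree2 : Tree := (.node 0 (.node 2 (.node 2 .leaf (.node 1 .leaf .leaf)) .leaf) (.node 1 (.node 2 .leaf (.node 1 (.node 2 (.node 2 (.node 2 .leaf .leaf) .leaf) (.node 1 .leaf (.node 1 .leaf .leaf))) .leaf)) (.node 1 (.node 2 (.node 2 .leaf .leaf) .leaf) .leaf)))

/-- the triangle `c₁ c₂ Q` -/
def tree3 : Tree := (.node 1 (.node 2 (.node 2 .leaf (.node 1 .leaf .leaf)) (.node 1 (.node 2 (.node 2 (.node 2 .leaf .leaf) .leaf) (.node 1 (.node 2 .leaf .leaf) (.node 1 (.node 2 .leaf .leaf) .leaf))) (.node 1 .leaf (.node 1 .leaf .leaf)))) (.node 1 .leaf (.node 1 .leaf .leaf)))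

theorem check1 : check tree1 (0, 0) (2176, 0) (2176, 384) = true := by decide +kernel

theorem check2 : check tree2 (0, 0) (2176, 384) (1152, 1152) = true := by decide +kernel

theorem check3 : check tree3 (1152, 1152) (2176, 384) (2176, 2176) = true := by decide +kernel

/-- the lattice points at distance at most `√(60125/578)` from `(x, y)` -/
def cl (x y : ℝ) : Set (ℤ × ℤ) := {p | ((p.1 : ℝ) - x) ^ 2 + ((p.2 : ℝ) - y) ^ 2 ≤ 60125 / 578}

/-- all points of the triangle have many lattice points nearby -/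
def Good (A B C : ℤ × ℤ) : Prop := ∀ a b c : ℝ, 0 ≤ a → 0 ≤ b → 0 ≤ c → a + b + c = 1 →
  323 ≤ (cl ((a * A.1 + b * B.1 + c * C.1) / 4352) ((a * A.2 + b * B.2 + c * C.2) / 4352)).encard

theorem inD_real {v p : ℤ × ℤ} (h : inD v p = true) :
    ((p.1 : ℝ) - v.1 / 4352) ^ 2 + ((p.2 : ℝ) - v.2 / 4352) ^ 2 ≤ 60125 / 578 := by
  have h1 := of_decide_eq_true h
  have h2 : ((4352 * p.1 - v.1) * (4352 * p.1 - v.1) + (4352 * p.2 - v.2) * (4352 * p.2 - v.2) : ℝ)
      ≤ 1970176000 := by exact_mod_cast h1
  have h3 : ((p.1 : ℝ) - v.1 / 4352) ^ 2 + ((p.2 : ℝ) - v.2 / 4352) ^ 2 =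
      ((4352 * p.1 - v.1) * (4352 * p.1 - v.1) + (4352 * p.2 - v.2) * (4352 * p.2 - v.2) : ℝ) /
        4352 ^ 2 := by
    field_simp
  rw [h3]
  rw [div_le_iff₀ (by norm_num)]
  linarith

theorem good_leaf {A B C : ℤ × ℤ} (h : 323 ≤ (near A B C).card) : Good A B C := by
  intro a b c ha hb hc habc
  have hsub : (↑(near A B C) : Set (ℤ × ℤ)) ⊆
      cl ((a * A.1 + b * B.1 + c * C.1) / 4352) ((a * A.2 + b * B.2 + c * C.2) / 4352) := by
    intro p hp
    rw [Finset.mem_coe, near, Finset.mem_filter, Bool.and_eq_true, Bool.and_eq_true] at hp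
    obtain ⟨_, ⟨hA, hB⟩, hC⟩ := hp
    have h1 := inD_real hA
    have h2 := inD_real hB
    have h3 := inD_real hC
    show ((p.1 : ℝ) - _) ^ 2 + ((p.2 : ℝ) - _) ^ 2 ≤ 60125 / 578
    have key : ∀ u v w : ℝ, (a * u + b * v + c * w) ^ 2 ≤ a * u ^ 2 + b * v ^ 2 + c * w ^ 2 := by
      intro u v w
      have : a * u ^ 2 + b * v ^ 2 + c * w ^ 2 - (a * u + b * v + c * w) ^ 2 =
          a * b * (u - v) ^ 2 + a * c * (u - w) ^ 2 + b * c * (v - w) ^ 2 := by
        have hc' : c = 1 - a - b := by linarith
        subst hc'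
        ring
      have h0 : 0 ≤ a * b * (u - v) ^ 2 + a * c * (u - w) ^ 2 + b * c * (v - w) ^ 2 := by positivity
      linarith
    have e1 : (p.1 : ℝ) - (a * A.1 + b * B.1 + c * C.1) / 4352 =
        a * (p.1 - A.1 / 4352) + b * (p.1 - B.1 / 4352) + c * (p.1 - C.1 / 4352) := by
      have : (p.1 : ℝ) = (a + b + c) * p.1 := by rw [habc, one_mul]
      nlinarith [this]
    have e2 : (p.2 : ℝ) - (a * A.2 + b * B.2 + c * C.2) / 4352 =
        a * (p.2 - A.2 / 4352) + b * (p.2 - B.2 / 4352) + c * (p.2 - C.2 / 4352) := by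
      have : (p.2 : ℝ) = (a + b + c) * p.2 := by rw [habc, one_mul]
      nlinarith [this]
    rw [e1, e2]
    have k1 := key (p.1 - A.1 / 4352) (p.1 - B.1 / 4352) (p.1 - C.1 / 4352)
    have k2 := key (p.2 - A.2 / 4352) (p.2 - B.2 / 4352) (p.2 - C.2 / 4352)
    have k3 := mul_le_mul_of_nonneg_left h1 ha
    have k4 := mul_le_mul_of_nonneg_left h2 hb
    have k5 := mul_le_mul_of_nonneg_left h3 hc
    have k6 : a * (60125 / 578 : ℝ) + b * (60125 / 578) + c * (60125 / 578) = 60125 / 578 := by
      rw [← add_mul, ← add_mul, habc, one_mul]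
    linarith
  calc (323 : ℕ∞) ≤ ((near A B C).card : ℕ∞) := by exact_mod_cast h
    _ = (↑(near A B C) : Set (ℤ × ℤ)).encard := (Set.encard_coe_eq_coe_finsetCard _).symm
    _ ≤ _ := Set.encard_le_encard hsub

theorem good_rot {A B C : ℤ × ℤ} (h : Good B C A) : Good A B C := by
  intro a b c ha hb hc habc
  have := h b c a hb hc ha (by linarith)
  have e1 : b * (B.1 : ℝ) + c * C.1 + a * A.1 = a * A.1 + b * B.1 + c * C.1 := by ring
  have e2 : b * (B.2 : ℝ) + c * C.2 + a * A.2 = a * A.2 + b * B.2 + c * C.2 := by ring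
  rw [e1, e2] at this
  exact this

/-- subdivision at a point of an edge -/
theorem good_cut {A B C M : ℤ × ℤ} (s t : ℕ) (hs : 0 < s) (ht : 0 < t)
    (h1 : ((s : ℤ) + t) * M.1 = t * A.1 + s * B.1) (h2 : ((s : ℤ) + t) * M.2 = t * A.2 + s * B.2)
    (hl : Good A M C) (hr : Good M B C) : Good A B C := by
  intro a b c ha hb hc habc
  have hs' : (0 : ℝ) < s := by exact_mod_cast hs
  have ht' : (0 : ℝ) < t := by exact_mod_cast ht
  have h1' : ((s : ℝ) + t) * M.1 = t * A.1 + s * B.1 := by exact_mod_cast h1
  have h2' : ((s : ℝ) + t) * M.2 = t * A.2 + s * B.2 := by exact_mod_cast h2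
  rcases le_total (b * t) (a * s) with hab | hab
  · -- towards A
    have := hl (a - b * t / s) (b * (s + t) / s) c
      (by rw [sub_nonneg, div_le_iff₀ hs']; exact hab) (by positivity) hc
      (by field_simp; linear_combination (s : ℝ) * habc)
    have e1 : (a - b * t / s) * (A.1 : ℝ) + b * (s + t) / s * M.1 + c * C.1 =
        a * A.1 + b * B.1 + c * C.1 := by
      field_simp
      linear_combination b * h1'
    have e2 : (a - b * t / s) * (A.2 : ℝ) + b * (s + t) / s * M.2 + c * C.2 =
        a * A.2 + b * B.2 + c * C.2 := by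
      field_simp
      linear_combination b * h2'
    rw [e1, e2] at this
    exact this
  · have := hr (a * (s + t) / t) (b - a * s / t) c
      (by positivity) (by rw [sub_nonneg, div_le_iff₀ ht']; exact hab) hc
      (by field_simp; linear_combination (t : ℝ) * habc)
    have e1 : a * (s + t) / t * (M.1 : ℝ) + (b - a * s / t) * B.1 + c * C.1 =
        a * A.1 + b * B.1 + c * C.1 := by
      field_simp
      linear_combination a * h1'
    have e2 : a * (s + t) / t * (M.2 : ℝ) + (b - a * s / t) * B.2 + c * C.2 =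
        a * A.2 + b * B.2 + c * C.2 := by
      field_simp
      linear_combination a * h2'
    rw [e1, e2] at this
    exact this

theorem good_mid {A B C : ℤ × ℤ} (hm : isMid A B = true) (hl : Good A (mid A B) C)
    (hr : Good (mid A B) B C) : Good A B C := by
  rw [isMid, Bool.and_eq_true] at hm
  have h1 := of_decide_eq_true hm.1
  have h2 := of_decide_eq_true hm.2
  refine good_cut 1 1 one_pos one_pos ?_ ?_ hl hr
  · push_cast
    linarith
  · push_cast
    linarith

theorem good_of_check (T : Tree) : ∀ A B C, check T A B C = true → Good A B C := by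
  induction T with
  | leaf =>
    intro A B C h
    exact good_leaf (of_decide_eq_true h)
  | node e l r ihl ihr =>
    intro A B C h
    match e, h with
    | 0, h =>
      simp only [check, Bool.and_eq_true] at h
      exact good_mid h.1 (ihl _ _ _ h.2.1) (ihr _ _ _ h.2.2)
    | 1, h =>
      simp only [check, Bool.and_eq_true] at h
      exact good_rot (good_mid h.1 (ihl _ _ _ h.2.1) (ihr _ _ _ h.2.2))
    | (n + 2), h =>
      simp only [check, Bool.and_eq_true] at h
      exact good_rot (good_rot (good_mid h.1 (ihl _ _ _ h.2.1) (ihr _ _ _ h.2.2)))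

/-- the fundamental triangle of the symmetry group of the lattice -/
theorem good_fundamental : Good (0, 0) (2176, 0) (2176, 2176) := by
  have g1 := good_of_check _ _ _ _ check1
  have g2 := good_of_check _ _ _ _ check2
  have g3 := good_of_check _ _ _ _ check3
  -- the triangle O c₂ Q
  have g4 : Good (0, 0) (2176, 384) (2176, 2176) := by
    -- cut the edge Q O at c₁
    have h : Good (2176, 2176) (0, 0) (2176, 384) := by
      refine good_cut (M := (1152, 1152)) 8 9 (by norm_num) (by norm_num) (by norm_num)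
        (by norm_num) ?_ ?_
      · exact good_rot g3
      · exact good_rot g2
    exact good_rot (good_rot h)
  -- cut the edge P Q at c₂
  have h : Good (2176, 0) (2176, 2176) (0, 0) := by
    refine good_cut (M := (2176, 384)) 3 14 (by norm_num) (by norm_num) (by norm_num)
      (by norm_num) ?_ ?_
    · exact good_rot (good_rot g1)
    · exact good_rot (good_rot g4)
  exact good_rot h

end Pool.Agent.R193.MC
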